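import Pool.Agent.Y311.GT.Enc
import Pool.Agent.Helper448.Count

/-!
# The number of unions of `D` matchings with a drawing with `k` colours

The samples of the classes have sizes proportional to the sizes of the classes, and every vertex
stores, for every matching, only the data of its own class.
-/

set_option autoImplicit false
set_option linter.unusedSectionVars false

namespace Pool.Agent.Y311.GT

open Pool.Agent.Helper448
open Walk Encode Table Geo Finset
open Pool.Agent.Helper448.Count

/-- the vertex set: two sides of size `m` -/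
abbrev VV (m : ℕ) := Fin m ⊕ Fin m

variable {m k D : ℕ}

/-- a straight-line drawing of the union of `D` matchings, with a colouring of the edges by
`k` colours such that edges of one matching with the same colour do not meet -/
structure Draw (π : Fin D → Equiv.Perm (Fin m)) (X Y : VV m → ℝ) (c : Fin D → Fin m → Fin k) :
    Prop where
  inj : Function.Injective X
  off : ∀ j a v, v ≠ Sum.inl a → v ≠ Sum.inr (π j a) →
    ¬ On X Y v (Sum.inl a, Sum.inr (π j a))
  cross : ∀ j a a', a ≠ a' → c j a = c j a' →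
    ¬ Meet X Y (Sum.inl a, Sum.inr (π j a)) (Sum.inl a', Sum.inr (π j a'))

/-- edges oriented from left to right -/
noncomputable def sg (X : VV m → ℝ) (π : Fin D → Equiv.Perm (Fin m)) (j : Fin D) (a : Fin m) :
    VV m × VV m :=
  if X (Sum.inl a) < X (Sum.inr (π j a)) then (Sum.inl a, Sum.inr (π j a))
  else (Sum.inr (π j a), Sum.inl a)

/-- the segments of one class -/
noncomputable def Sc (X : VV m → ℝ) (π : Fin D → Equiv.Perm (Fin m)) (c : Fin D → Fin m → Fin k)
    (j : Fin D) (i : Fin k) : Finset (VV m × VV m) :=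
  (univ.filter (fun a => c j a = i)).image (sg X π j)

lemma sg_cases (X : VV m → ℝ) (π : Fin D → Equiv.Perm (Fin m)) (j : Fin D) (a : Fin m) :
    sg X π j a = (Sum.inl a, Sum.inr (π j a)) ∨ sg X π j a = (Sum.inr (π j a), Sum.inl a) := by
  unfold sg
  split_ifs
  · exact Or.inl rfl
  · exact Or.inr rfl

lemma sg_lt {X : VV m → ℝ} (hinj : Function.Injective X) (π : Fin D → Equiv.Perm (Fin m))
    (j : Fin D) (a : Fin m) : X (sg X π j a).1 < X (sg X π j a).2 := by
  unfold sg
  split_ifs with h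
  · exact h
  · exact lt_of_le_of_ne (not_lt.mp h) (fun h0 => by cases hinj h0)

lemma sg_off {π : Fin D → Equiv.Perm (Fin m)} {X Y : VV m → ℝ} {c : Fin D → Fin m → Fin k}
    (hd : Draw π X Y c) (j : Fin D) (a : Fin m) (v : VV m) (h1 : v ≠ (sg X π j a).1)
    (h2 : v ≠ (sg X π j a).2) : ¬ On X Y v (sg X π j a) := by
  rcases sg_cases X π j a with h | h
  · rw [h] at h1 h2 ⊢
    exact hd.off j a v h1 h2
  · rw [h] at h1 h2 ⊢
    intro hon
    exact hd.off j a v h2 h1 hon.swap

lemma cls_Sc {π : Fin D → Equiv.Perm (Fin m)} {X Y : VV m → ℝ} {c : Fin D → Fin m → Fin k}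
    (hd : Draw π X Y c) (j : Fin D) (i : Fin k) : Cls X (Sc X π c j i) (hgt X Y) := by
  have hmem : ∀ s ∈ Sc X π c j i, ∃ a, c j a = i ∧ s = sg X π j a := by
    intro s hs
    obtain ⟨a, ha, rfl⟩ := mem_image.mp hs
    exact ⟨a, (mem_filter.mp ha).2, rfl⟩
  apply cls_of_disjoint hd.inj
  · intro s hs
    obtain ⟨a, _, rfl⟩ := hmem s hs
    exact sg_lt hd.inj π j a
  · intro s hs s' hs' hne
    obtain ⟨a, _, rfl⟩ := hmem s hs
    obtain ⟨a', _, rfl⟩ := hmem s' hs'
    have haa : a ≠ a' := by rintro rfl; exact hne rfl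
    have hpp : π j a ≠ π j a' := fun h0 => haa ((π j).injective h0)
    rcases sg_cases X π j a with h1 | h1 <;> rcases sg_cases X π j a' with h2 | h2 <;>
      rw [h1, h2] <;> simp [haa, hpp]
  · intro s hs s' hs' hne hmeet
    obtain ⟨a, hca, rfl⟩ := hmem s hs
    obtain ⟨a', hca', rfl⟩ := hmem s' hs'
    have haa : a ≠ a' := by rintro rfl; exact hne rfl
    apply hd.cross j a a' haa (hca.trans hca'.symm)
    rcases sg_cases X π j a with h1 | h1 <;> rcases sg_cases X π j a' with h2 | h2 <;>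
      rw [h1, h2] at hmeet
    · exact hmeet
    · exact hmeet.symm_right
    · exact hmeet.symm_left
    · exact hmeet.symm_left.symm_right

lemma Sc_card_sum (X : VV m → ℝ) (π : Fin D → Equiv.Perm (Fin m)) (c : Fin D → Fin m → Fin k)
    (j : Fin D) : ∑ i, (Sc X π c j i).card ≤ m := by
  calc ∑ i, (Sc X π c j i).card ≤ ∑ i, (univ.filter (fun a => c j a = i)).card :=
        sum_le_sum fun i _ => card_image_le
    _ = (univ : Finset (Fin m)).card :=
        (card_eq_sum_card_fiberwise (f := c j) (t := univ) (fun a _ => mem_univ _)).symm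
    _ = m := by simp

lemma recover (X : VV m → ℝ) (π : Fin D → Equiv.Perm (Fin m)) (c : Fin D → Fin m → Fin k)
    (j : Fin D) (a b : Fin m) : π j a = b ↔
      ∃ i, (Sum.inl a, Sum.inr b) ∈ Sc X π c j i ∨ (Sum.inr b, Sum.inl a) ∈ Sc X π c j i := by
  constructor
  · rintro rfl
    refine ⟨c j a, ?_⟩
    have hm : sg X π j a ∈ Sc X π c j (c j a) :=
      mem_image_of_mem _ (mem_filter.mpr ⟨mem_univ _, rfl⟩)
    rcases sg_cases X π j a with h1 | h1
    · left; rwa [h1] at hm
    · right; rwa [h1] at hm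
  · rintro ⟨i, h | h⟩
    · obtain ⟨a', _, h1⟩ := mem_image.mp h
      rcases sg_cases X π j a' with h2 | h2 <;> rw [h2] at h1
      · simp only [Prod.mk.injEq, Sum.inl.injEq, Sum.inr.injEq] at h1
        rw [← h1.1, h1.2]
      · simp at h1
    · obtain ⟨a', _, h1⟩ := mem_image.mp h
      rcases sg_cases X π j a' with h2 | h2 <;> rw [h2] at h1
      · simp at h1
      · simp only [Prod.mk.injEq, Sum.inl.injEq, Sum.inr.injEq] at h1
        rw [← h1.2, h1.1]

/-- the class of a vertex in the matching `j` -/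
def ci (π : Fin D → Equiv.Perm (Fin m)) (c : Fin D → Fin m → Fin k) (j : Fin D) (v : VV m) :
    Fin k :=
  match v with
  | Sum.inl a => c j a
  | Sum.inr b => c j ((π j).symm b)

lemma ci_ne {X : VV m → ℝ} {π : Fin D → Equiv.Perm (Fin m)} {c : Fin D → Fin m → Fin k}
    {j : Fin D} {i : Fin k} {v : VV m} (h : ci π c j v ≠ i) :
    ∀ s ∈ Sc X π c j i, v ≠ s.1 ∧ v ≠ s.2 := by
  intro s hs
  obtain ⟨a, ha, rfl⟩ := mem_image.mp hs
  have hca := (mem_filter.mp ha).2
  have h1 : v ≠ Sum.inl a := by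
    rintro rfl
    exact h hca
  have h2 : v ≠ Sum.inr (π j a) := by
    rintro rfl
    apply h
    simp only [ci, Equiv.symm_apply_apply]
    exact hca
  rcases sg_cases X π j a with h3 | h3 <;> rw [h3]
  · exact ⟨h1, h2⟩
  · exact ⟨h2, h1⟩

open Classical in
/-- the table of the sampled segments -/
noncomputable def cv {N : ℕ} (G : Fin N → VV m × VV m)
    (T : VV m → Fin N → SignType × SignType × SignType) : Tb (VV m) :=
  fun v a => if h : ∃ t, G t = a then T v h.choose else (0, 0, 0)

/-- the sample of one class -/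
def Rg {N : ℕ} (G : Fin N → VV m × VV m) (own : Fin N → Option (Fin D × Fin k)) (j : Fin D)
    (i : Fin k) : Finset (VV m × VV m) :=
  (univ.filter (fun t => own t = some (j, i))).image G

/-- a numbering of the vertices -/
noncomputable def lab (m : ℕ) : VV m → ℕ := fun v => ((Fintype.equivFin (VV m)) v : ℕ)

lemma lab_inj (m : ℕ) : Function.Injective (lab m) := by
  intro u v h
  exact (Fintype.equivFin (VV m)).injective (Fin.ext h)

/-- the kind of a vertex in a class -/
def kdf (kc : Fin D → VV m → Fin k × Fin 4) (j : Fin D) (i : Fin k) (v : VV m) : Fin 4 :=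
  if (kc j v).1 = i then (kc j v).2 else 0

/-- the code of a vertex in a class -/
def cdf (kc : Fin D → VV m → Fin k × Fin 4) (code : Fin D → VV m → List Bool × ℕ) (j : Fin D)
    (i : Fin k) (v : VV m) : List Bool × ℕ :=
  if (kc j v).1 = i then code j v else ([], 0)

theorem encode_exists {M N : ℕ} (hm : 0 < m) (hD : 0 < D) (hMN : D * m < M * N)
    {π : Fin D → Equiv.Perm (Fin m)} {X Y : VV m → ℝ} {c : Fin D → Fin m → Fin k}
    (hd : Draw π X Y c) :
    ∃ (G : Fin N → VV m × VV m) (own : Fin N → Option (Fin D × Fin k))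
      (T : VV m → Fin N → SignType × SignType × SignType)
      (kc : Fin D → VV m → Fin k × Fin 4) (code : Fin D → VV m → List Bool × ℕ),
      (∃ X Y : VV m → ℝ, Valid X Y G ∧ T = tab X Y G) ∧
      (∀ j, code j ∈ Codes (VV m) ((8 + 6 * M) * m)) ∧
      (∀ j i, dec (cv G T) (Rg G own j i) (lab m) (kdf kc j i) (cdf kc code j i) =
        ↑(Sc X π c j i)) := by
  classical
  have hM : 0 < M := by
    rcases Nat.eq_zero_or_pos M with h | h
    · rw [h] at hMN; omega
    · exact h
  have hclass : ∀ p : Fin D × Fin k, ∃ g : Fin ((Sc X π c p.1 p.2).card / M) → VV m × VV m,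
      (∀ t, ∃ a, g t = sg X π p.1 a) ∧
      ∃ (kind : VV m → Fin 4) (code : VV m → List Bool × ℕ),
        ∑ v, ((code v).1.length + (code v).2) ≤ (8 + 6 * M) * (Sc X π c p.1 p.2).card ∧
        dec (fullTab X Y) (univ.image g) (lab m) kind code = ↑(Sc X π c p.1 p.2) ∧
        ∀ v, (∀ s ∈ Sc X π c p.1 p.2, v ≠ s.1 ∧ v ≠ s.2) → kind v = 0 ∧ code v = ([], 0) := by
    rintro ⟨j, i⟩
    have hC := cls_Sc hd j i
    by_cases hne : (Sc X π c j i).Nonempty
    · obtain ⟨g, hg, kind, code, h1, h2, h3⟩ := class_encode' hC (compat_full hC) hne (lab m)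
        (lab_inj m) ((Sc X π c j i).card / M) (Sc X π c j i).card M le_rfl
        (Nat.lt_mul_div_succ _ hM).le
      refine ⟨g, ?_, kind, code, h1, ?_, h3⟩
      · intro t
        obtain ⟨a, _, ha⟩ := mem_image.mp (hg t)
        exact ⟨a, ha.symm⟩
      · convert h2
    · rw [not_nonempty_iff_eq_empty] at hne
      refine ⟨fun _ => sg X π j ⟨0, hm⟩, fun _ => ⟨_, rfl⟩, fun _ => 0, fun _ => ([], 0), ?_, ?_,
        fun _ _ => ⟨rfl, rfl⟩⟩
      · simp
      · simp only
        rw [hne]
        ext s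
        simp only [dec, coe_empty, Set.mem_empty_iff_false, iff_false]
        rintro (⟨_, h⟩ | ⟨h, _⟩)
        · exact absurd h (by decide)
        · exact absurd h (by decide)
  choose g hg kind code hcost hdec hzero using hclass
  -- the slots
  let W := (p : Fin D × Fin k) × Fin ((Sc X π c p.1 p.2).card / M)
  have hW : Fintype.card (Option W) ≤ Fintype.card (Fin N) := by
    rw [Fintype.card_option, Fintype.card_sigma, Fintype.card_fin]
    simp only [Fintype.card_fin]
    have h1 : M * ∑ p : Fin D × Fin k, (Sc X π c p.1 p.2).card / M ≤ D * m := by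
      rw [mul_sum]
      calc ∑ p : Fin D × Fin k, M * ((Sc X π c p.1 p.2).card / M)
          ≤ ∑ p : Fin D × Fin k, (Sc X π c p.1 p.2).card :=
            sum_le_sum fun p _ => Nat.mul_div_le _ _
        _ = ∑ j : Fin D, ∑ i : Fin k, (Sc X π c j i).card := Fintype.sum_prod_type _
        _ ≤ ∑ _j : Fin D, m := sum_le_sum fun j _ => Sc_card_sum X π c j
        _ = D * m := by simp
    have h2 : M * ∑ p : Fin D × Fin k, (Sc X π c p.1 p.2).card / M < M * N :=
      lt_of_le_of_lt h1 hMN
    exact Nat.lt_of_mul_lt_mul_left h2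
  obtain ⟨emb⟩ := Function.Embedding.nonempty_of_card_le hW
  have hsurj : ∃ f : Fin N → Option W, ∀ w, f (emb w) = w := by
    have : Nonempty (Option W) := ⟨none⟩
    exact ⟨Function.invFun emb, Function.leftInverse_invFun emb.injective⟩
  obtain ⟨f, hf⟩ := hsurj
  obtain ⟨G, hG⟩ : ∃ G : Fin N → VV m × VV m, ∀ t, G t =
      (f t).elim (sg X π ⟨0, hD⟩ ⟨0, hm⟩) (fun w => g w.1 w.2) := ⟨_, fun _ => rfl⟩
  obtain ⟨own, hown⟩ : ∃ own : Fin N → Option (Fin D × Fin k), ∀ t, own t =
      (f t).map (fun w => w.1) := ⟨_, fun _ => rfl⟩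
  have hGsg : ∀ t, ∃ j a, G t = sg X π j a := by
    intro t
    rw [hG]
    rcases f t with _ | w
    · exact ⟨_, _, rfl⟩
    · obtain ⟨a, ha⟩ := hg w.1 w.2
      exact ⟨_, a, ha⟩
  have hRg : ∀ j i, Rg G own j i = univ.image (g (j, i)) := by
    intro j i
    unfold Rg
    ext s
    simp only [mem_image, mem_filter, mem_univ, true_and]
    constructor
    · rintro ⟨t, ht, rfl⟩
      rw [hown] at ht
      obtain ⟨w, hw, hw2⟩ := Option.map_eq_some_iff.mp ht
      rw [hG, hw]
      obtain ⟨p, t'⟩ := w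
      simp only at hw2
      subst hw2
      exact ⟨t', rfl⟩
    · rintro ⟨t, rfl⟩
      refine ⟨emb (some ⟨(j, i), t⟩), ?_, ?_⟩
      · rw [hown, hf]; rfl
      · rw [hG, hf]; rfl
  obtain ⟨kc, hkc⟩ : ∃ kc : Fin D → VV m → Fin k × Fin 4, ∀ j v, kc j v =
      (ci π c j v, kind (j, ci π c j v) v) := ⟨_, fun _ _ => rfl⟩
  obtain ⟨cd, hcd⟩ : ∃ cd : Fin D → VV m → List Bool × ℕ, ∀ j v, cd j v =
      code (j, ci π c j v) v := ⟨_, fun _ _ => rfl⟩
  have hk' : ∀ j i, kdf kc j i = kind (j, i) := by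
    intro j i
    funext v
    unfold kdf
    rw [hkc]
    by_cases hi : ci π c j v = i
    · rw [if_pos hi, hi]
    · rw [if_neg hi]
      exact ((hzero (j, i) v (ci_ne hi)).1).symm
  have hc' : ∀ j i, cdf kc cd j i = code (j, i) := by
    intro j i
    funext v
    unfold cdf
    rw [hkc, hcd]
    by_cases hi : ci π c j v = i
    · rw [if_pos hi, hi]
    · rw [if_neg hi]
      exact ((hzero (j, i) v (ci_ne hi)).2).symm
  refine ⟨G, own, tab X Y G, kc, cd, ⟨X, Y, ⟨hd.inj, ?_, ?_⟩, rfl⟩, ?_, ?_⟩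
  · intro t
    obtain ⟨j, a, ha⟩ := hGsg t
    rw [ha]
    exact sg_lt hd.inj π j a
  · intro t v h1 h2
    obtain ⟨j, a, ha⟩ := hGsg t
    rw [ha] at h1 h2 ⊢
    apply orient_ne v h1 h2
    apply sg_off hd j a v
    · rintro rfl; exact lt_irrefl _ h1
    · rintro rfl; exact lt_irrefl _ h2
  · intro j
    show ∑ v, ((cd j v).1.length + (cd j v).2) ≤ (8 + 6 * M) * m
    calc ∑ v, ((cd j v).1.length + (cd j v).2)
        ≤ ∑ v, ∑ i, ((code (j, i) v).1.length + (code (j, i) v).2) := by
          apply sum_le_sum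
          intro v _
          rw [hcd]
          exact single_le_sum
            (f := fun i => ((code (j, i) v).1.length + (code (j, i) v).2))
            (fun _ _ => Nat.zero_le _) (mem_univ (ci π c j v))
      _ = ∑ i, ∑ v, ((code (j, i) v).1.length + (code (j, i) v).2) := sum_comm
      _ ≤ ∑ i, (8 + 6 * M) * (Sc X π c j i).card := sum_le_sum fun i _ => hcost (j, i)
      _ = (8 + 6 * M) * ∑ i, (Sc X π c j i).card := by rw [mul_sum]
      _ ≤ (8 + 6 * M) * m := Nat.mul_le_mul_left _ (Sc_card_sum X π c j)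
  · intro j i
    have hTT : ∀ v, ∀ a ∈ Rg G own j i, cv G (tab X Y G) v a = fullTab X Y v a := by
      intro v a ha
      obtain ⟨t, _, ht⟩ := mem_image.mp ha
      have hex : ∃ t, G t = a := ⟨t, ht⟩
      unfold cv
      rw [dif_pos hex]
      have h1 := hex.choose_spec
      unfold tab fullTab
      rw [h1]
    rw [Congr.dec_c hTT, hRg, hk', hc']
    exact hdec (j, i)

/-- **There are few tuples with a drawing with `k` colours.** -/
theorem count_sub {M N : ℕ} (hm : 0 < m) (hD : 0 < D) (hMN : D * m < M * N)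
    (S : Finset (Fin D → Equiv.Perm (Fin m)))
    (hall : ∀ π ∈ S, ∃ (X Y : VV m → ℝ) (c : Fin D → Fin m → Fin k), Draw π X Y c) :
    S.card ≤ ((2 * m) * (2 * m)) ^ N * ((D * k + 1) ^ N *
      (((600 * N ^ 3) ^ (4 * N) * (81 * N ^ 2) ^ (2 * m)) *
      (((4 * k) ^ (2 * m)) ^ D * (4 ^ ((8 + 6 * M) * m) * 4 ^ (2 * m)) ^ D))) := by
  classical
  have hN : 0 < N := by
    rcases Nat.eq_zero_or_pos N with h | h
    · rw [h] at hMN; omega
    · exact h
  have : NeZero N := ⟨hN.ne'⟩
  obtain ⟨BT, hBT⟩ : ∃ BT, BT = (600 * N ^ 3) ^ (4 * N) * (81 * N ^ 2) ^ (2 * m) := ⟨_, rfl⟩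
  obtain ⟨BC, hBC⟩ : ∃ BC, BC = 4 ^ ((8 + 6 * M) * m) * 4 ^ (2 * m) := ⟨_, rfl⟩
  have hBTpos : 0 < BT := by rw [hBT]; positivity
  have hBCpos : 0 < BC := by rw [hBC]; positivity
  have hcardV : Fintype.card (VV m) = 2 * m := by simp; ring
  have hT : ∀ G : Fin N → VV m × VV m, ∃ f : (VV m → Fin N → SignType × SignType × SignType) →
      Fin BT, Set.InjOn f {T | ∃ X Y : VV m → ℝ, Valid X Y G ∧ T = tab X Y G} := by
    intro G
    apply exists_injOn (Set.toFinite _) hBTpos
    have := tab_count G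
    rw [Fintype.card_fin, hcardV] at this
    rw [hBT]
    exact this
  choose fT hfT using hT
  obtain ⟨fC, hfC⟩ := exists_injOn (codes_finite (VV m) ((8 + 6 * M) * m)) hBCpos (by
    have := codes_ncard (VV m) ((8 + 6 * M) * m)
    rw [hcardV] at this
    rw [hBC]; exact this)
  have hall' : ∀ π : S, ∃ (X Y : VV m → ℝ) (c : Fin D → Fin m → Fin k), Draw π.1 X Y c :=
    fun π => hall π.1 π.2
  choose X Y c hd using hall'
  have henc := fun π : S => encode_exists (k := k) (M := M) (N := N) hm hD hMN (hd π)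
  choose G own T kc code hval hcode hdec using henc
  obtain ⟨e, he⟩ : ∃ e : S →
      (Fin N → VV m × VV m) × (Fin N → Option (Fin D × Fin k)) × Fin BT ×
        (Fin D → VV m → Fin k × Fin 4) × (Fin D → Fin BC),
      ∀ π, e π = (G π, own π, fT (G π) (T π), kc π, fun j => fC (code π j)) :=
    ⟨_, fun _ => rfl⟩
  have hinj : Function.Injective e := by
    intro π π' hpp
    rw [he, he] at hpp
    simp only [Prod.mk.injEq] at hpp
    obtain ⟨h1, h2, h3, h4, h5⟩ := hpp
    rw [h1] at h3
    have h6 : T π = T π' := by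
      apply hfT (G π') _ _ h3
      · have := hval π
        rw [h1] at this
        exact this
      · exact hval π'
    have h7 : code π = code π' := by
      funext j
      exact hfC (hcode π j) (hcode π' j) (congrFun h5 j)
    have h8 : ∀ j i, Sc (X π) π.1 (c π) j i = Sc (X π') π'.1 (c π') j i := by
      intro j i
      rw [← coe_inj, ← hdec π j i, ← hdec π' j i, h1, h2, h4, h6, h7]
    apply Subtype.ext
    funext j
    ext a
    have h9 := (recover (X π') π'.1 (c π') j a (π.1 j a)).mpr (by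
      obtain ⟨i, hi⟩ := (recover (X π) π.1 (c π) j a (π.1 j a)).mp rfl
      refine ⟨i, ?_⟩
      rw [← h8 j i]
      exact hi)
    rw [h9]
  have hcard := Fintype.card_le_of_injective e hinj
  have hl : Fintype.card S = S.card := Fintype.card_coe S
  have hr' : Fintype.card ((Fin N → VV m × VV m) × (Fin N → Option (Fin D × Fin k)) × Fin BT ×
        (Fin D → VV m → Fin k × Fin 4) × (Fin D → Fin BC)) =
      ((2 * m) * (2 * m)) ^ N * ((D * k + 1) ^ N * (BT * (((4 * k) ^ (2 * m)) ^ D * BC ^ D))) := by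
    simp only [Fintype.card_prod, Fintype.card_fun, Fintype.card_fin, Fintype.card_sum, ← two_mul,
      Fintype.card_option]
    rw [mul_comm k 4]
  rw [hl, hr'] at hcard
  rw [hBT, hBC] at hcard
  exact hcard

end Pool.Agent.Y311.GT
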