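import Pool.Agent.Helper448.Encode

/-!
# Encoding of one class of disjoint segments

A variant of `Pool.Agent.Helper448.Encode.class_encode` (same proof) with the additional information
that only the ends of the segments carry data.
-/

set_option autoImplicit false
set_option linter.unusedSectionVars false

namespace Pool.Agent.Y311.GT

open Finset Pool.Agent.Helper448 Walk Sample Encode

variable {V : Type*} [Fintype V] [DecidableEq V]
variable {X : V → ℝ} {S : Finset (V × V)} {h : V × V → ℝ → ℝ} {T : Tb V}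

open Classical in
theorem class_encode' (hC : Cls X S h) (hT : Compat X S h S T) (hS : S.Nonempty)
    (lab : V → ℕ) (hlab : Function.Injective lab) (r m M : ℕ) (hcard : S.card ≤ m)
    (hm : m ≤ M * (r + 1)) :
    ∃ g : Fin r → V × V, (∀ t, g t ∈ S) ∧ ∃ (kind : V → Fin 4) (code : V → List Bool × ℕ),
      ∑ v, ((code v).1.length + (code v).2) ≤ (8 + 6 * M) * m ∧
      dec T (univ.image g) lab kind code = ↑S ∧
      ∀ v, (∀ s ∈ S, v ≠ s.1 ∧ v ≠ s.2) → kind v = 0 ∧ code v = ([], 0) := by
  obtain ⟨g, hgS, hcost⟩ := class_sample hC hT hS r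
  refine ⟨g, hgS, ?_⟩
  set R := univ.image g with hR
  have hRS : R ⊆ S := by
    intro x hx
    obtain ⟨t, _, rfl⟩ := mem_image.mp hx
    exact hgS t
  have hTR := hT.mono hRS
  have hwalk : ∀ s : V × V, ∃ bits : List Bool, s ∈ S \ R →
      walk T R (cell T R s.1) bits = cell T R s.2 ∧
      bits.length ≤ (univ.filter (fun e => Vis X h R e s)).card := by
    intro s
    by_cases hs : s ∈ S \ R
    · obtain ⟨hsS, hsR⟩ := mem_sdiff.mp hs
      obtain ⟨bits, h1, h2⟩ := walk_start hC hRS hTR hsS hsR
      exact ⟨bits, fun _ => ⟨h1, by convert h2⟩⟩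
    · exact ⟨[], fun h0 => absurd h0 hs⟩
  choose bits hbits using hwalk
  -- kinds
  obtain ⟨kind, hkind⟩ : ∃ kind : V → Fin 4, ∀ v, kind v =
      (if ∃ s ∈ R, v = s.1 then 3 else if ∃ s ∈ S \ R, v = s.1 then 1
        else if ∃ s ∈ S \ R, v = s.2 then 2 else 0) := ⟨_, fun _ => rfl⟩
  have hk3 : ∀ s ∈ R, kind s.1 = 3 := by
    intro s hs
    rw [hkind, if_pos ⟨s, hs, rfl⟩]
  have h13 : (1 : Fin 4) ≠ 3 := by decide
  have hk1 : ∀ s ∈ S \ R, kind s.1 = 1 := by
    intro s hs
    obtain ⟨hsS, hsR⟩ := mem_sdiff.mp hs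
    rw [hkind, if_neg, if_pos ⟨s, hs, rfl⟩]
    rintro ⟨a, ha, h0⟩
    have hne : s ≠ a := by rintro rfl; exact hsR ha
    exact (hC.disj s hsS a (hRS ha) hne).1 h0
  have hk2 : ∀ s ∈ S \ R, kind s.2 = 2 := by
    intro s hs
    obtain ⟨hsS, hsR⟩ := mem_sdiff.mp hs
    have hno : ∀ a ∈ S, s.2 ≠ a.1 := by
      intro a ha h0
      by_cases hsa : s = a
      · subst hsa
        have := hC.left s hsS
        rw [h0] at this
        exact lt_irrefl _ this
      · exact (hC.disj s hsS a ha hsa).2.2.1 h0
    rw [hkind, if_neg, if_neg, if_pos ⟨s, hs, rfl⟩]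
    · rintro ⟨a, ha, h0⟩
      exact hno a (mem_sdiff.mp ha).1 h0
    · rintro ⟨a, ha, h0⟩
      exact hno a (hRS ha) h0
  have hk1' : ∀ v, kind v = 1 → ∃ s ∈ S \ R, v = s.1 := by
    intro v hv
    rw [hkind] at hv
    split_ifs at hv with h1 h2 h3
    · exact absurd hv (by decide)
    · exact h2
    · exact absurd hv (by decide)
    · exact absurd hv (by decide)
  have hk2' : ∀ v, kind v = 2 → ∃ s ∈ S \ R, v = s.2 := by
    intro v hv
    rw [hkind] at hv
    split_ifs at hv with h1 h2 h3
    · exact absurd hv (by decide)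
    · exact absurd hv (by decide)
    · exact h3
    · exact absurd hv (by decide)
  -- rank function
  obtain ⟨idx, hidx⟩ : ∃ idx : V → ℕ, ∀ q, idx q =
      {v | kind v = 2 ∧ cell T R v = cell T R q ∧ lab v < lab q}.ncard := ⟨_, fun _ => rfl⟩
  -- code
  obtain ⟨code, hcode⟩ : ∃ code : V → List Bool × ℕ, ∀ v, code v =
      (if h0 : ∃ s ∈ S \ R, v = s.1 then (bits h0.choose, idx h0.choose.2) else ([], 0)) :=
    ⟨_, fun _ => rfl⟩
  have hcode1 : ∀ s ∈ S \ R, code s.1 = (bits s, idx s.2) := by
    intro s hs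
    have hex : ∃ s' ∈ S \ R, s.1 = s'.1 := ⟨s, hs, rfl⟩
    have hch : hex.choose = s := by
      have h1 := hex.choose_spec
      by_contra hne
      exact (hC.disj _ (mem_sdiff.mp h1.1).1 s (mem_sdiff.mp hs).1 hne).1 h1.2.symm
    rw [hcode, dif_pos hex, hch]
  refine ⟨kind, code, ?_, ?_, ?_⟩
  · -- the cost
    have hinj1 : Set.InjOn Prod.fst ((S \ R : Finset (V × V)) : Set (V × V)) := by
      intro s hs s' hs' h0
      by_contra hne
      exact (hC.disj s (mem_sdiff.mp hs).1 s' (mem_sdiff.mp hs').1 hne).1 h0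
    have e1 : ∑ v, ((code v).1.length + (code v).2) =
        ∑ s ∈ S \ R, ((bits s).length + idx s.2) := by
      have e2 : ∑ v, ((code v).1.length + (code v).2) =
          ∑ v ∈ (S \ R).image Prod.fst, ((code v).1.length + (code v).2) := by
        symm
        apply sum_subset (subset_univ _)
        intro v _ hv
        have : ¬ ∃ s ∈ S \ R, v = s.1 := by
          rintro ⟨s, hs, rfl⟩
          exact hv (mem_image_of_mem _ hs)
        rw [hcode, dif_neg this]
        simp
      rw [e2, sum_image hinj1]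
      apply sum_congr rfl
      intro s hs
      rw [hcode1 s hs]
    rw [e1, sum_add_distrib]
    obtain ⟨A, hA⟩ : ∃ A, A = ∑ s ∈ S \ R, (univ.filter (fun e => Vis X h R e s)).card := ⟨_, rfl⟩
    obtain ⟨B, hB⟩ : ∃ B, B = ∑ s ∈ S \ R, ((S \ R).filter (fun s' => X s.2 < X s'.2 ∧
            cell T R s'.2 = cell T R s.2)).card := ⟨_, rfl⟩
    rw [← hA, ← hB] at hcost
    have hA1 : ∑ s ∈ S \ R, (bits s).length ≤ A := by
      rw [hA]
      exact sum_le_sum fun s hs => (hbits s hs).2
    have hB1 : ∑ s ∈ S \ R, idx s.2 ≤ 2 * B := by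
      have e3 : ∀ s ∈ S \ R, idx s.2 ≤
          ((S \ R).filter (fun s' => X s.2 < X s'.2 ∧ cell T R s'.2 = cell T R s.2)).card +
          ((S \ R).filter (fun s' => X s'.2 < X s.2 ∧ cell T R s.2 = cell T R s'.2)).card := by
        intro s hs
        rw [hidx]
        have e4 : {v | kind v = 2 ∧ cell T R v = cell T R s.2 ∧ lab v < lab s.2} ⊆
            (((S \ R).filter (fun s' => X s.2 < X s'.2 ∧ cell T R s'.2 = cell T R s.2)) ∪
            ((S \ R).filter (fun s' => X s'.2 < X s.2 ∧
              cell T R s.2 = cell T R s'.2)) : Finset (V × V)).image Prod.snd := by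
          rintro v ⟨hv1, hv2, hv3⟩
          obtain ⟨s', hs', rfl⟩ := hk2' v hv1
          rw [mem_coe, mem_image]
          refine ⟨s', ?_, rfl⟩
          rw [mem_union, mem_filter, mem_filter]
          have hne : s.2 ≠ s'.2 := by
            intro h0; rw [h0] at hv3; exact lt_irrefl _ hv3
          rcases lt_or_gt_of_ne (fun h0 => hne (hC.inj h0)) with hlt | hgt
          · exact Or.inl ⟨hs', hlt, hv2⟩
          · exact Or.inr ⟨hs', hgt, hv2.symm⟩
        refine (Set.ncard_le_ncard e4 (Set.toFinite _)).trans ?_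
        rw [Set.ncard_coe_finset]
        exact card_image_le.trans (card_union_le _ _)
      refine (sum_le_sum e3).trans ?_
      rw [sum_add_distrib]
      have e5 : ∑ s ∈ S \ R, ((S \ R).filter (fun s' => X s'.2 < X s.2 ∧
          cell T R s.2 = cell T R s'.2)).card = B := by
        rw [hB]
        simp only [card_eq_sum_ones, sum_filter]
        rw [sum_comm]
      rw [e5, ← hB]
      omega
    have h3 : (r + 1) * (A + B) ≤ (r + 1) * ((4 + 3 * M) * m) := by
      refine hcost.trans ?_
      have h4 : S.card ^ 2 ≤ m * (M * (r + 1)) := by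
        rw [pow_two]
        exact Nat.mul_le_mul hcard (hcard.trans hm)
      have h5 : 4 * (r + 1) * S.card ≤ 4 * (r + 1) * m := Nat.mul_le_mul_left _ hcard
      calc 4 * (r + 1) * S.card + 3 * S.card ^ 2
          ≤ 4 * (r + 1) * m + 3 * (m * (M * (r + 1))) := by omega
        _ = (r + 1) * ((4 + 3 * M) * m) := by ring
    have h6 : A + B ≤ (4 + 3 * M) * m := Nat.le_of_mul_le_mul_left h3 (by omega)
    have h7 : (8 + 6 * M) * m = 2 * ((4 + 3 * M) * m) := by ring
    omega
  · -- correctness
    ext s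
    constructor
    · rintro (⟨h1, _⟩ | ⟨h1, h2, h3, h4⟩)
      · exact hRS h1
      · obtain ⟨s0, hs0, h5⟩ := hk1' s.1 h1
        have h6 := hcode1 s0 hs0
        rw [← h5] at h6
        rw [h6] at h3 h4
        simp only at h3 h4
        have h7 := (hbits s0 hs0).1
        rw [← h5, h3] at h7
        -- both right ends lie in the same cell and have the same rank
        rw [hidx, h7] at h4
        have h8 : s.2 = s0.2 := by
          by_contra hne
          have hlne : lab s.2 ≠ lab s0.2 := fun h0 => hne (hlab h0)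
          rcases lt_or_gt_of_ne hlne with hlt | hgt
          · have hss : {v | kind v = 2 ∧ cell T R v = cell T R s0.2 ∧ lab v < lab s.2} ⊂
                {v | kind v = 2 ∧ cell T R v = cell T R s0.2 ∧ lab v < lab s0.2} := by
              constructor
              · rintro v ⟨a1, a2, a3⟩
                exact ⟨a1, a2, a3.trans hlt⟩
              · intro h9
                have : s.2 ∈ {v | kind v = 2 ∧ cell T R v = cell T R s0.2 ∧ lab v < lab s.2} :=
                  h9 ⟨h2, h7, hlt⟩
                exact lt_irrefl _ this.2.2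
            have := Set.ncard_lt_ncard hss (Set.toFinite _)
            omega
          · have hss : {v | kind v = 2 ∧ cell T R v = cell T R s0.2 ∧ lab v < lab s0.2} ⊂
                {v | kind v = 2 ∧ cell T R v = cell T R s0.2 ∧ lab v < lab s.2} := by
              constructor
              · rintro v ⟨a1, a2, a3⟩
                exact ⟨a1, a2, a3.trans hgt⟩
              · intro h9
                have : s0.2 ∈ {v | kind v = 2 ∧ cell T R v = cell T R s0.2 ∧
                    lab v < lab s0.2} := h9 ⟨hk2 s0 hs0, rfl, hgt⟩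
                exact lt_irrefl _ this.2.2
            have := Set.ncard_lt_ncard hss (Set.toFinite _)
            omega
        have h9 : s = s0 := Prod.ext h5 h8
        rw [h9]
        exact (mem_sdiff.mp hs0).1
    · intro hs
      by_cases hsR : s ∈ R
      · exact Or.inl ⟨hsR, hk3 s hsR⟩
      · have hs' : s ∈ S \ R := mem_sdiff.mpr ⟨hs, hsR⟩
        right
        refine ⟨hk1 s hs', hk2 s hs', ?_, ?_⟩
        · rw [hcode1 s hs']
          exact (hbits s hs').1
        · rw [hcode1 s hs']
          exact hidx s.2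
  · intro v hv
    have n1 : ¬ ∃ s ∈ R, v = s.1 := fun ⟨s, hs, h1⟩ => (hv s (hRS hs)).1 h1
    have n2 : ¬ ∃ s ∈ S \ R, v = s.1 := fun ⟨s, hs, h1⟩ => (hv s (mem_sdiff.mp hs).1).1 h1
    have n3 : ¬ ∃ s ∈ S \ R, v = s.2 := fun ⟨s, hs, h1⟩ => (hv s (mem_sdiff.mp hs).1).2 h1
    refine ⟨?_, ?_⟩
    · rw [hkind, if_neg n1, if_neg n2, if_neg n3]
    · rw [hcode, dif_neg n2]

end Pool.Agent.Y311.GT
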