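import Pool.Agent.Y311.GT.Core
import Pool.Agent.Helper448.Final

/-!
# The estimate of the number of tuples with a drawing with few colours
-/

set_option autoImplicit false

namespace Pool.Agent.Y311.GT

open Filter

/-- The bound of `count_sub`. -/
def BB (D M N m k : ℕ) : ℕ :=
  ((2 * m) * (2 * m)) ^ N * ((D * k + 1) ^ N *
      (((600 * N ^ 3) ^ (4 * N) * (81 * N ^ 2) ^ (2 * m)) *
      (((4 * k) ^ (2 * m)) ^ D * (4 ^ ((8 + 6 * M) * m) * 4 ^ (2 * m)) ^ D)))

lemma log_aux (x y d : ℝ) (M N m D : ℕ) (hx : 0 < x) (hy : 0 < y) (hd : 0 < d) :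
    Real.log (((2 * x) * (2 * x)) ^ N * ((d * y) ^ N *
      (((600 * x ^ 3) ^ (4 * N) * (81 * x ^ 2) ^ (2 * m)) *
      (((4 * y) ^ (2 * m)) ^ D * ((4:ℝ) ^ ((8 + 6 * M) * m) * (4:ℝ) ^ (2 * m)) ^ D)))) =
    N * (2 * (Real.log 2 + Real.log x)) + (N * (Real.log d + Real.log y) +
      (4 * N * (Real.log 600 + 3 * Real.log x) + 2 * m * (Real.log 81 + 2 * Real.log x) +
      (D * (2 * m * (Real.log 4 + Real.log y)) +
        D * ((8 + 6 * M) * m * Real.log 4 + 2 * m * Real.log 4)))) := by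
  simp (disch := positivity) only [Real.log_mul, Real.log_pow]
  push_cast
  ring

/-- The constant. -/
noncomputable def C1 (D M : ℕ) : ℝ :=
  2 * Real.log 2 + Real.log (D + 1) + 4 * Real.log 600 + 2 * Real.log 81 + 2 * D * Real.log 4 +
    (10 + 6 * M) * D * Real.log 4

lemma log_BB (D M N m k : ℕ) (hN : 0 < N) (hNm : N ≤ m) (hk : 0 < k) :
    Real.log (BB D M N m k : ℝ) ≤ C1 D M * m + 14 * N * Real.log m + N * Real.log k +
      4 * m * Real.log m + 2 * m * D * Real.log k := by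
  have hm : 0 < m := by omega
  have hmR : (0:ℝ) < m := by exact_mod_cast hm
  have hkR : (0:ℝ) < k := by exact_mod_cast hk
  have hdR : (0:ℝ) < (D:ℝ) + 1 := by positivity
  have h1 : BB D M N m k ≤ ((2 * m) * (2 * m)) ^ N * (((D + 1) * k) ^ N *
      (((600 * m ^ 3) ^ (4 * N) * (81 * m ^ 2) ^ (2 * m)) *
      (((4 * k) ^ (2 * m)) ^ D * (4 ^ ((8 + 6 * M) * m) * 4 ^ (2 * m)) ^ D))) := by
    have h0 : D * k + 1 ≤ (D + 1) * k := by
      rw [add_mul]; omega
    unfold BB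
    gcongr
  have hpos : 0 < BB D M N m k := by
    unfold BB
    positivity
  have h2 : (BB D M N m k : ℝ) ≤ (((2 * (m:ℝ)) * (2 * m)) ^ N * ((((D:ℝ) + 1) * k) ^ N *
      (((600 * (m:ℝ) ^ 3) ^ (4 * N) * (81 * (m:ℝ) ^ 2) ^ (2 * m)) *
      (((4 * (k:ℝ)) ^ (2 * m)) ^ D * ((4:ℝ) ^ ((8 + 6 * M) * m) * (4:ℝ) ^ (2 * m)) ^ D)))) := by
    exact_mod_cast h1
  have h3 := Real.log_le_log (by exact_mod_cast hpos) h2
  rw [log_aux (m:ℝ) (k:ℝ) ((D:ℝ) + 1) M N m D hmR hkR hdR] at h3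
  refine h3.trans ?_
  have hNR : (N:ℝ) ≤ m := by exact_mod_cast hNm
  have l2 : 0 ≤ Real.log 2 := Real.log_nonneg (by norm_num)
  have l6 : 0 ≤ Real.log 600 := Real.log_nonneg (by norm_num)
  have ld : 0 ≤ Real.log ((D:ℝ) + 1) := Real.log_nonneg (by linarith [Nat.cast_nonneg (α := ℝ) D])
  have e : (N:ℝ) * (2 * Real.log 2 + Real.log ((D:ℝ) + 1) + 4 * Real.log 600) ≤
      m * (2 * Real.log 2 + Real.log ((D:ℝ) + 1) + 4 * Real.log 600) :=
    mul_le_mul_of_nonneg_right hNR (by positivity)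
  unfold C1
  nlinarith [e]

lemma C1_le (D M : ℕ) (hD : 0 < D) : C1 D M ≤ D * (58 + 8.4 * M) := by
  have l2 := Real.log_two_lt_d9
  have l4 : Real.log 4 ≤ 1.4 := by
    have : (4 : ℝ) = 2 ^ 2 := by norm_num
    rw [this, Real.log_pow]
    push_cast
    linarith
  have l6 : Real.log 600 ≤ 7 := by
    have h1 := Real.log_le_log (by norm_num : (0:ℝ) < 600) (by norm_num : (600:ℝ) ≤ 2 ^ 10)
    rw [Real.log_pow] at h1
    push_cast at h1
    linarith
  have l8 : Real.log 81 ≤ 5 := by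
    have h1 := Real.log_le_log (by norm_num : (0:ℝ) < 81) (by norm_num : (81:ℝ) ≤ 2 ^ 7)
    rw [Real.log_pow] at h1
    push_cast at h1
    linarith
  have hDR : (1:ℝ) ≤ D := by exact_mod_cast hD
  have ld : Real.log ((D:ℝ) + 1) ≤ D := by
    have := Real.log_le_sub_one_of_pos (by linarith : (0:ℝ) < (D:ℝ) + 1)
    linarith
  have hM : (0:ℝ) ≤ M := Nat.cast_nonneg M
  have h1 : 2 * (D:ℝ) * Real.log 4 ≤ 2 * D * 1.4 := mul_le_mul_of_nonneg_left l4 (by positivity)
  have h2 : (10 + 6 * (M:ℝ)) * D * Real.log 4 ≤ (10 + 6 * M) * D * 1.4 :=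
    mul_le_mul_of_nonneg_left l4 (by positivity)
  unfold C1
  nlinarith

/-- **The final estimate.** -/
theorem eventually_BB (D : ℕ) (hD : 0 < D) :
    ∀ᶠ m : ℕ in atTop, ∀ k : ℕ, 0 < k →
      (k : ℝ) ≤ 2 * ((m : ℝ) ^ (1 / 2 - 2 / (D : ℝ)) * Real.exp (-(25 * √(Real.log m)))) →
      ∃ M N : ℕ, D * m < M * N ∧
        (BB D M N m k : ℝ) ≤ Real.exp (-(D * m * √(Real.log m))) * (m.factorial : ℝ) ^ D := by
  have hlog : Tendsto (fun m : ℕ => √(Real.log m)) atTop atTop :=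
    Real.tendsto_sqrt_atTop.comp (Real.tendsto_log_atTop.comp tendsto_natCast_atTop_atTop)
  have hDR : (0:ℝ) < D := by exact_mod_cast hD
  filter_upwards [hlog.eventually_ge_atTop (2 * D + 10), eventually_ge_atTop 2] with m hs hm2
  intro k hk hkle
  have hm0 : 0 < m := by omega
  have hmR : (0:ℝ) < m := by exact_mod_cast hm0
  have hkR : (0:ℝ) < k := by exact_mod_cast hk
  obtain ⟨L, hLdef⟩ : ∃ L, L = Real.log m := ⟨_, rfl⟩
  obtain ⟨s, hsdef⟩ : ∃ s, s = √(Real.log m) := ⟨_, rfl⟩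
  rw [← hsdef] at hs hkle ⊢
  have hs10 : 10 ≤ s := by linarith
  have hLs : L = s ^ 2 := by
    rw [hsdef, hLdef]
    symm
    apply Real.sq_sqrt
    by_contra hneg
    push Not at hneg
    have : √(Real.log m) = 0 := Real.sqrt_eq_zero_of_nonpos hneg.le
    rw [← hsdef] at this
    linarith
  have hL0 : 0 ≤ L := by rw [hLs]; positivity
  -- the size of the samples
  obtain ⟨M, hM⟩ : ∃ M : ℕ, M = ⌈s⌉₊ := ⟨_, rfl⟩
  have hMs : s ≤ M := by rw [hM]; exact Nat.le_ceil s
  have hMs1 : (M:ℝ) < s + 1 := by rw [hM]; exact Nat.ceil_lt_add_one (by linarith)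
  have hMR : (0:ℝ) < M := by linarith
  have hM0 : 0 < M := by exact_mod_cast hMR
  have hMD : 2 * D + 1 ≤ M := by
    have : (2 * D + 1 : ℝ) ≤ M := by linarith
    exact_mod_cast this
  have hMm : M ≤ m := by
    have h1 : (M:ℝ) ≤ m := by
      have h2 : s + 1 ≤ L := by rw [hLs]; nlinarith
      have h3 : L ≤ m := by
        rw [hLdef]
        have := Real.log_le_sub_one_of_pos hmR
        linarith
      linarith
    exact_mod_cast h1
  -- the colours
  have hlogk : Real.log k ≤ 1 + (1 / 2 - 2 / (D : ℝ)) * L - 25 * s := by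
    have h1 := Real.log_le_log hkR hkle
    rw [Real.log_mul (by norm_num) (by positivity), Real.log_mul (by positivity) (by positivity),
      Real.log_rpow hmR, Real.log_exp, ← hLdef] at h1
    have := Real.log_two_lt_d9
    linarith
  have hlogk2 : Real.log k ≤ 1 + L := by
    have h1 : 0 ≤ 2 / (D:ℝ) := by positivity
    nlinarith
  refine ⟨M, D * m / M + 1, Nat.lt_mul_div_succ _ hM0, ?_⟩
  obtain ⟨N, hN⟩ : ∃ N, N = D * m / M + 1 := ⟨_, rfl⟩
  rw [← hN]
  have hN0 : 0 < N := by rw [hN]; exact Nat.succ_pos _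
  have hNm : N ≤ m := by
    have h1 : D * m / M ≤ m / 2 := by
      rw [Nat.div_le_iff_le_mul_add_pred hM0]
      have h2 : 2 * D ≤ M := by omega
      have h3 : m ≤ 2 * (m / 2) + 1 := by omega
      calc D * m ≤ D * (2 * (m / 2) + 1) := Nat.mul_le_mul_left _ h3
        _ = (2 * D) * (m / 2) + D := by ring
        _ ≤ M * (m / 2) + (M - 1) := by
            have : D ≤ M - 1 := by omega
            exact Nat.add_le_add (Nat.mul_le_mul_right _ h2) this
    have h5 : m / 2 + 1 ≤ m := by omega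
    rw [hN]
    exact (Nat.succ_le_succ h1).trans h5
  have hNR : (N:ℝ) ≤ 2 * D * m / M := by
    have h1 : (N:ℝ) = ((D * m / M : ℕ) : ℝ) + 1 := by rw [hN]; push_cast; ring
    have h2 : ((D * m / M : ℕ) : ℝ) ≤ (D * m : ℝ) / M := by
      have := @Nat.cast_div_le ℝ _ _ _ (D * m) M
      push_cast at this
      exact this
    have h3 : (1:ℝ) ≤ (D * m : ℝ) / M := by
      rw [le_div_iff₀ hMR, one_mul]
      have h4 : M ≤ D * m := by nlinarith
      exact_mod_cast h4
    rw [h1]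
    have : 2 * (D:ℝ) * m / M = (D * m : ℝ) / M + (D * m : ℝ) / M := by ring
    linarith
  have h15 : 15 * (N:ℝ) * L ≤ 30 * D * m * s := by
    have h1 : 15 * (N:ℝ) * L ≤ 15 * (2 * D * m / M) * L :=
      mul_le_mul_of_nonneg_right (mul_le_mul_of_nonneg_left hNR (by norm_num)) hL0
    refine h1.trans ?_
    have h3 : 15 * (2 * (D:ℝ) * m / M) * L = 30 * (D * m) * s * (s / M) := by
      rw [hLs]; ring
    rw [h3]
    have h4 : s / M ≤ 1 := by
      rw [div_le_one hMR]; exact hMs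
    have h5 : 0 ≤ 30 * ((D:ℝ) * m) * s := by positivity
    calc 30 * ((D:ℝ) * m) * s * (s / M) ≤ 30 * (D * m) * s * 1 :=
          mul_le_mul_of_nonneg_left h4 h5
      _ = 30 * D * m * s := by ring
  have hB := log_BB D M N m k hN0 hNm hk
  rw [← hLdef] at hB
  have hNm' : (N:ℝ) ≤ m := by exact_mod_cast hNm
  have hN0' : (0:ℝ) ≤ N := Nat.cast_nonneg N
  -- the factorial
  have hfac : (m:ℝ) * L - 2 * m ≤ Real.log (m.factorial : ℝ) := by
    have h1 := Pool.Agent.Helper448.Final.pow_self_le m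
    have h2 : (m:ℝ) ^ m ≤ 4 ^ m * (m.factorial : ℝ) := by exact_mod_cast h1
    have hf : (0:ℝ) < m.factorial := by exact_mod_cast Nat.factorial_pos m
    have h3 := Real.log_le_log (by positivity) h2
    rw [Real.log_mul (by positivity) (by positivity), Real.log_pow, Real.log_pow, ← hLdef] at h3
    have h4 : Real.log 4 ≤ 2 := by
      have : (4 : ℝ) = 2 ^ 2 := by norm_num
      rw [this, Real.log_pow]
      have := Real.log_two_lt_d9
      push_cast
      linarith
    have h5 : (m:ℝ) * Real.log 4 ≤ m * 2 := mul_le_mul_of_nonneg_left h4 hmR.le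
    linarith
  have hpos : (0:ℝ) < BB D M N m k := by
    have : 0 < BB D M N m k := by
      unfold BB
      positivity
    exact_mod_cast this
  have hf : (0:ℝ) < m.factorial := by exact_mod_cast Nat.factorial_pos m
  rw [← Real.log_le_log_iff hpos (by positivity), Real.log_mul (by positivity) (by positivity),
    Real.log_exp, Real.log_pow]
  have hDk : 2 * (m:ℝ) * D * Real.log k ≤
      2 * m * D * (1 + (1 / 2 - 2 / (D : ℝ)) * L - 25 * s) :=
    mul_le_mul_of_nonneg_left hlogk (by positivity)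
  have hDk2 : 2 * (m:ℝ) * D * (1 + (1 / 2 - 2 / (D : ℝ)) * L - 25 * s) =
      2 * (D * m) + (D - 4) * m * L - 50 * (D * m * s) := by
    field_simp
    ring
  have hNk : (N:ℝ) * Real.log k ≤ m + N * L := by
    calc (N:ℝ) * Real.log k ≤ N * (1 + L) := mul_le_mul_of_nonneg_left hlogk2 hN0'
      _ = N + N * L := by ring
      _ ≤ m + N * L := by linarith
  have hDf : (D:ℝ) * (m * L - 2 * m) ≤ D * Real.log (m.factorial : ℝ) :=
    mul_le_mul_of_nonneg_left hfac hDR.le
  have hmD : (m:ℝ) ≤ D * m := by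
    have : (1:ℝ) ≤ D := by exact_mod_cast hD
    nlinarith
  have hC : C1 D M * m ≤ 66.4 * (D * m) + 8.4 * (D * m * s) := by
    have h1 := C1_le D M hD
    have h2 : C1 D M * m ≤ D * (58 + 8.4 * M) * m := mul_le_mul_of_nonneg_right h1 hmR.le
    have h3 : (D:ℝ) * m * M ≤ D * m * (s + 1) := mul_le_mul_of_nonneg_left hMs1.le (by positivity)
    calc C1 D M * m ≤ D * (58 + 8.4 * M) * m := h2
      _ = 58 * (D * m) + 8.4 * (D * m * M) := by ring
      _ ≤ 58 * (D * m) + 8.4 * (D * m * (s + 1)) := by linarith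
      _ = 66.4 * (D * m) + 8.4 * (D * m * s) := by ring
  have hfin : 10 * ((D:ℝ) * m) ≤ D * m * s := by
    calc 10 * ((D:ℝ) * m) = D * m * 10 := by ring
      _ ≤ D * m * s := mul_le_mul_of_nonneg_left hs10 (by positivity)
  rw [hDk2] at hDk
  have e1 : ((D:ℝ) - 4) * m * L = D * m * L - 4 * m * L := by ring
  have e2 : (D:ℝ) * (m * L - 2 * m) = D * m * L - 2 * (D * m) := by ring
  have e3 : 30 * (D:ℝ) * m * s = 30 * (D * m * s) := by ring
  have e4 : 15 * (N:ℝ) * L = 14 * N * L + N * L := by ring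
  rw [e1] at hDk
  rw [e2] at hDf
  rw [e3, e4] at h15
  linarith

end Pool.Agent.Y311.GT
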